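import Mathlib

/-!
# Limits of critical directions need not be parallel to the face of the limit point

For `Q = (x - 1)² + y + z` the hypersurface `V_Q` is smooth, and `N(Q) = conv(0, 2 e₁, e₂, e₃)` is
three-dimensional.  The points `(1 + u, u, -u - u²)`, `u → 0`, lie on `V_Q` and are critical in the
directions `[2 (1 + u) : 1 : -(1 + u)]`; they converge to a point of the orbit of the edge
`Γ = [0, 2 e₁]`, but the limit direction `[2 : 1 : -1]` is not parallel to `Γ`.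
-/

set_option autoImplicit false

open Filter Topology
open scoped LinearAlgebra.Projectivization

namespace Pool.Agent.Results.MP_759130_ag.DirectionOffFace

/-- Laurent polynomials in `d` variables, given by their finitely many nonzero coefficients -/
abbrev Laurent (d : ℕ) : Type := (Fin d → ℤ) →₀ ℂ

/-- the Laurent monomial `z^a` at a point `z` of the torus `(ℂ*)^d` -/
noncomputable def mono {d : ℕ} (z : Fin d → ℂˣ) (a : Fin d → ℤ) : ℂ := ((∏ i, z i ^ a i : ℂˣ) : ℂ)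

/-- the value `Q(z)` -/
noncomputable def ev {d : ℕ} (Q : Laurent d) (z : Fin d → ℂˣ) : ℂ :=
  Q.sum fun a c => c * mono z a

/-- the logarithmic gradient `(z₁ ∂Q/∂z₁, …, z_d ∂Q/∂z_d)` at `z` -/
noncomputable def logGrad {d : ℕ} (Q : Laurent d) (z : Fin d → ℂˣ) : Fin d → ℂ :=
  fun i => Q.sum fun a c => c * (a i : ℂ) * mono z a

/-- the hypersurface `V_Q` in the torus -/
def hyp {d : ℕ} (Q : Laurent d) : Set (Fin d → ℂˣ) := {z | ev Q z = 0}

/-- the Newton polytope `N(Q)` -/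
def newton {d : ℕ} (Q : Laurent d) : Set (Fin d → ℝ) :=
  convexHull ℝ {p | ∃ a ∈ Q.support, p = fun i => (a i : ℝ)}

/-- `Γ` is a (nonempty) face of `P`: the set of the points of `P` at which some linear functional
is maximal on `P` -/
def IsFace {d : ℕ} (P Γ : Set (Fin d → ℝ)) : Prop :=
  Γ.Nonempty ∧ ∃ l : Fin d → ℝ, Γ = {p | p ∈ P ∧ ∀ q ∈ P, ∑ i, l i * q i ≤ ∑ i, l i * p i}

/-- the lattice points of the dilate `k S` -/
def latt {d : ℕ} (S : Set (Fin d → ℝ)) (k : ℕ) : Set (Fin d → ℤ) :=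
  {a | ∃ p ∈ S, ∀ i, (a i : ℝ) = k * p i}

/-- the quotient topology on a projective space -/
noncomputable instance projTop (V : Type) [AddCommGroup V] [Module ℂ V] [TopologicalSpace V] :
    TopologicalSpace (ℙ ℂ V) :=
  TopologicalSpace.coinduced (Projectivization.mk' ℂ : {v : V // v ≠ 0} → ℙ ℂ V) inferInstance

/-- `p` is the point with homogeneous coordinates `v` -/
def HasCoords {V : Type} [AddCommGroup V] [Module ℂ V] (p : ℙ ℂ V) (v : V) : Prop :=
  ∃ h : v ≠ 0, p = Projectivization.mk ℂ v h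

/-- `p` is the image of the point `z` of the torus in the projective space whose homogeneous
coordinates are indexed by the lattice points of the polytope `k P`: the point with coordinates
`z^a`, `a ∈ k P ∩ ℤ^d` -/
def IsImage {d : ℕ} (P : Set (Fin d → ℝ)) (k : ℕ) (z : Fin d → ℂˣ)
    (p : ℙ ℂ (latt P k → ℂ)) : Prop :=
  HasCoords p fun a => mono z a

/-- the toric variety of `P`, embedded by the lattice points of `k P`: the closure of the image
of the torus -/
def toric {d : ℕ} (P : Set (Fin d → ℝ)) (k : ℕ) : Set (ℙ ℂ (latt P k → ℂ)) :=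
  closure {p | ∃ z : Fin d → ℂˣ, IsImage P k z p}

open Classical in
/-- the torus orbit `O_Γ`: the orbit of the point whose coordinates are `1` at the lattice points
of `k Γ` and `0` at the others -/
def orbit {d : ℕ} (P : Set (Fin d → ℝ)) (k : ℕ) (Γ : Set (Fin d → ℝ)) :
    Set (ℙ ℂ (latt P k → ℂ)) :=
  {p | ∃ t : Fin d → ℂˣ, HasCoords p fun a => mono t a * (if (a : Fin d → ℤ) ∈ latt Γ k then 1 else 0)}

/-- the point `z` of `V_Q` is critical in the direction `r`, where `V_Q` is smooth -/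
def IsCritical {d : ℕ} (Q : Laurent d) (z : Fin d → ℂˣ) (r : ℙ ℂ (Fin d → ℂ)) : Prop :=
  HasCoords r (logGrad Q z)

/-- the direction `r` is parallel to `Γ` -/
def IsParallel {d : ℕ} (r : ℙ ℂ (Fin d → ℂ)) (Γ : Set (Fin d → ℝ)) : Prop :=
  ∃ v : Fin d → ℂ, HasCoords r v ∧
    v ∈ Submodule.span ℂ {w : Fin d → ℂ | ∃ a ∈ Γ, ∃ b ∈ Γ, w = fun i => ((a i - b i : ℝ) : ℂ)}

/-- `y` is the limit of a subsequence of `s` -/
def SubseqLimit {Y : Type} [TopologicalSpace Y] (s : ℕ → Y) (y : Y) : Prop :=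
  ∃ φ : ℕ → ℕ, StrictMono φ ∧ Tendsto (fun j => s (φ j)) atTop (𝓝 y)

/-- The assertion of Q1 for a Laurent polynomial `Q` with smooth `V_Q`, the toric variety `X` of
`N(Q)` being embedded by the lattice points of `k N(Q)`: for all points `z j` of `V_Q` critical in
directions `r j`, with images `x j` in `X`, and every limit `(x', r')` of a subsequence of
`(x j, r j)` in `X × ℂℙ^{d-1}`, if `x'` lies in `O_Γ` for a face `Γ` of `N(Q)` then `r'` is parallel
to `Γ`. -/
def Assertion {d : ℕ} (Q : Laurent d) (k : ℕ) : Prop :=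
  ∀ (z : ℕ → Fin d → ℂˣ) (x : ℕ → ℙ ℂ (latt (newton Q) k → ℂ)) (r : ℕ → ℙ ℂ (Fin d → ℂ)),
    (∀ j, z j ∈ hyp Q) → (∀ j, IsImage (newton Q) k (z j) (x j)) →
    (∀ j, IsCritical Q (z j) (r j)) →
    ∀ x' ∈ toric (newton Q) k, ∀ r' : ℙ ℂ (Fin d → ℂ), SubseqLimit (fun j => (x j, r j)) (x', r') →
      ∀ Γ, IsFace (newton Q) Γ → x' ∈ orbit (newton Q) k Γ → IsParallel r' Γ

/-! ### The example -/

/-- `(x - 1)² + y + z` -/
noncomputable def Q : Laurent 3 :=
  Finsupp.single ![2, 0, 0] 1 + Finsupp.single ![1, 0, 0] (-2) + Finsupp.single ![0, 0, 0] 1 +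
    Finsupp.single ![0, 1, 0] 1 + Finsupp.single ![0, 0, 1] 1

lemma sum_Q (f : (Fin 3 → ℤ) → ℂ → ℂ) (h0 : ∀ a, f a 0 = 0)
    (hadd : ∀ a b c, f a (b + c) = f a b + f a c) :
    Q.sum f = f ![2, 0, 0] 1 + f ![1, 0, 0] (-2) + f ![0, 0, 0] 1 + f ![0, 1, 0] 1 +
      f ![0, 0, 1] 1 := by
  unfold Q
  rw [Finsupp.sum_add_index' h0 hadd, Finsupp.sum_add_index' h0 hadd,
    Finsupp.sum_add_index' h0 hadd, Finsupp.sum_add_index' h0 hadd,
    Finsupp.sum_single_index (h0 _), Finsupp.sum_single_index (h0 _),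
    Finsupp.sum_single_index (h0 _), Finsupp.sum_single_index (h0 _),
    Finsupp.sum_single_index (h0 _)]

lemma mono3 (z : Fin 3 → ℂˣ) (a b c : ℤ) :
    mono z ![a, b, c] = (z 0 : ℂ) ^ a * (z 1 : ℂ) ^ b * (z 2 : ℂ) ^ c := by
  simp [mono, Fin.prod_univ_three]

lemma ev_Q (z : Fin 3 → ℂˣ) : ev Q z = ((z 0 : ℂ) - 1) ^ 2 + z 1 + z 2 := by
  unfold ev
  rw [sum_Q _ (by intro a; simp) (by intro a b c; ring)]
  have h2 : (z 0 : ℂ) ^ (2 : ℤ) = (z 0 : ℂ) ^ 2 := by exact_mod_cast rfl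
  simp only [mono3, h2]
  simp
  ring

lemma logGrad_Q (z : Fin 3 → ℂˣ) :
    logGrad Q z = ![2 * (z 0 : ℂ) * ((z 0 : ℂ) - 1), z 1, z 2] := by
  funext i
  unfold logGrad
  rw [sum_Q _ (by intro a; simp) (by intro a b c; ring)]
  have h2 : (z 0 : ℂ) ^ (2 : ℤ) = (z 0 : ℂ) ^ 2 := by exact_mod_cast rfl
  simp only [mono3, h2]
  fin_cases i
  · simp
    ring
  · simp
  · simp

lemma mem_support (a : Fin 3 → ℤ) : a ∈ Q.support ↔
    a = ![2, 0, 0] ∨ a = ![1, 0, 0] ∨ a = ![0, 0, 0] ∨ a = ![0, 1, 0] ∨ a = ![0, 0, 1] := by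
  rw [Finsupp.mem_support_iff]
  constructor
  · intro h
    by_contra hc
    push Not at hc
    obtain ⟨h1, h2, h3, h4, h5⟩ := hc
    apply h
    simp only [Q, Finsupp.add_apply, Finsupp.single_apply]
    rw [if_neg (Ne.symm h1), if_neg (Ne.symm h2), if_neg (Ne.symm h3), if_neg (Ne.symm h4),
      if_neg (Ne.symm h5)]
    simp
  · rintro (rfl | rfl | rfl | rfl | rfl) <;>
    simp [Q]

lemma newton_sub {p : Fin 3 → ℝ} (hp : p ∈ newton Q) : 0 ≤ p 1 ∧ 0 ≤ p 2 := by
  have hconv : Convex ℝ {p : Fin 3 → ℝ | 0 ≤ p 1 ∧ 0 ≤ p 2} := by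
    intro p hp q hq s t hs ht _
    simp only [Set.mem_ofPred_eq, Pi.add_apply, Pi.smul_apply, smul_eq_mul] at hp hq ⊢
    exact ⟨by have := mul_nonneg hs hp.1; have := mul_nonneg ht hq.1; linarith,
      by have := mul_nonneg hs hp.2; have := mul_nonneg ht hq.2; linarith⟩
  refine convexHull_min ?_ hconv hp
  rintro p ⟨a, ha, rfl⟩
  rw [mem_support] at ha
  rcases ha with rfl | rfl | rfl | rfl | rfl <;> simp

lemma mem_newton {a : Fin 3 → ℤ} (ha : a ∈ Q.support) : (fun i => (a i : ℝ)) ∈ newton Q :=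
  subset_convexHull ℝ _ ⟨a, ha, rfl⟩

/-- the edge `[0, 2 e₁]` -/
def edge : Set (Fin 3 → ℝ) := {p | p ∈ newton Q ∧ p 1 = 0 ∧ p 2 = 0}

lemma edge_face : IsFace (newton Q) edge := by
  have h0 : (fun _ => (0 : ℝ)) ∈ newton Q := by
    have := mem_newton (a := ![0, 0, 0]) (by rw [mem_support]; simp)
    convert this using 1
    funext i; fin_cases i <;> simp
  refine ⟨⟨fun _ => 0, h0, rfl, rfl⟩, ![0, -1, -1], ?_⟩
  ext p
  simp only [edge, Set.mem_ofPred_eq, Fin.sum_univ_three]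
  constructor
  · rintro ⟨hp, h1, h2⟩
    refine ⟨hp, fun q hq => ?_⟩
    have := newton_sub hq
    simp [h1, h2]
    linarith
  · rintro ⟨hp, h⟩
    have h1 := newton_sub hp
    have h2 := h _ h0
    simp at h2
    exact ⟨hp, by linarith, by linarith⟩

lemma full_dim : affineSpan ℝ (newton Q) = ⊤ := by
  have hA : ∀ a ∈ Q.support, (fun i => (a i : ℝ)) ∈ affineSpan ℝ (newton Q) := fun a ha =>
    subset_affineSpan ℝ _ (mem_newton ha)
  have h0 : (0 : Fin 3 → ℝ) ∈ affineSpan ℝ (newton Q) := by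
    have := hA ![0, 0, 0] (by rw [mem_support]; simp)
    convert this using 1
    funext i; fin_cases i <;> simp
  have h1 : (![1, 0, 0] : Fin 3 → ℝ) ∈ affineSpan ℝ (newton Q) := by
    have := hA ![1, 0, 0] (by rw [mem_support]; simp)
    convert this using 1
    funext i; fin_cases i <;> simp
  have h2 : (![0, 1, 0] : Fin 3 → ℝ) ∈ affineSpan ℝ (newton Q) := by
    have := hA ![0, 1, 0] (by rw [mem_support]; simp)
    convert this using 1
    funext i; fin_cases i <;> simp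
  have h3 : (![0, 0, 1] : Fin 3 → ℝ) ∈ affineSpan ℝ (newton Q) := by
    have := hA ![0, 0, 1] (by rw [mem_support]; simp)
    convert this using 1
    funext i; fin_cases i <;> simp
  rw [eq_top_iff]
  intro p _
  have e1 := AffineSubspace.vsub_mem_direction h1 h0
  have e2 := AffineSubspace.vsub_mem_direction h2 h0
  have e3 := AffineSubspace.vsub_mem_direction h3 h0
  have e := AffineSubspace.vadd_mem_of_mem_direction
    (Submodule.add_mem _ (Submodule.add_mem _ (Submodule.smul_mem _ (p 0) e1)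
      (Submodule.smul_mem _ (p 1) e2)) (Submodule.smul_mem _ (p 2) e3)) h0
  convert e using 1
  funext i
  fin_cases i <;> simp

lemma tendsto_proj {V : Type} [AddCommGroup V] [Module ℂ V] [TopologicalSpace V]
    {v : ℕ → V} {w : V} (hv : ∀ j, v j ≠ 0) (hw : w ≠ 0) (h : Tendsto v atTop (𝓝 w)) :
    Tendsto (fun j => Projectivization.mk ℂ (v j) (hv j)) atTop (𝓝 (Projectivization.mk ℂ w hw)) := by
  have hc : Continuous (Projectivization.mk' ℂ : {v : V // v ≠ 0} → ℙ ℂ V) := continuous_coinduced_rng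
  have h1 : Tendsto (fun j => (⟨v j, hv j⟩ : {v : V // v ≠ 0})) atTop (𝓝 ⟨w, hw⟩) :=
    tendsto_subtype_rng.2 h
  exact (hc.tendsto _).comp h1

/-- the parameter `u = 1 / (j + 1)` -/
noncomputable def uu (j : ℕ) : ℂ := ((1 / ((j : ℝ) + 1) : ℝ) : ℂ)

lemma uu_ne (j : ℕ) : uu j ≠ 0 := by
  unfold uu
  rw [Complex.ofReal_ne_zero]
  positivity

lemma uu_ne' (j : ℕ) : 1 + uu j ≠ 0 := by
  have : 1 + uu j = ((1 + 1 / ((j : ℝ) + 1) : ℝ) : ℂ) := by unfold uu; push_cast; rfl
  rw [this, Complex.ofReal_ne_zero]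
  positivity

lemma uu_tendsto : Tendsto uu atTop (𝓝 0) := by
  have h := (Complex.continuous_ofReal.tendsto 0).comp
    (tendsto_one_div_add_atTop_nhds_zero_nat (𝕜 := ℝ))
  rw [Complex.ofReal_zero] at h
  exact h

/-- the points `(1 + u, u, -u (1 + u))` -/
noncomputable def pt (j : ℕ) : Fin 3 → ℂˣ :=
  ![Units.mk0 (1 + uu j) (uu_ne' j), Units.mk0 (uu j) (uu_ne j),
    Units.mk0 (-(uu j * (1 + uu j))) (neg_ne_zero.2 (mul_ne_zero (uu_ne j) (uu_ne' j)))]

lemma pt_mem (j : ℕ) : pt j ∈ hyp Q := by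
  change ev Q (pt j) = 0
  rw [ev_Q]
  simp [pt]
  ring

lemma regular (z : Fin 3 → ℂˣ) : logGrad Q z ≠ 0 := by
  rw [logGrad_Q]
  intro h
  have := congrFun h 1
  simp at this

lemma latt_edge {k : ℕ} (hk : 1 ≤ k) {a : Fin 3 → ℤ} (ha : a ∈ latt (newton Q) k) :
    (0 ≤ a 1 ∧ 0 ≤ a 2) ∧ (a ∈ latt edge k ↔ a 1 = 0 ∧ a 2 = 0) := by
  obtain ⟨p, hp, hpa⟩ := ha
  have hk0 : (0 : ℝ) < k := by exact_mod_cast hk
  have hp' := newton_sub hp
  refine ⟨⟨?_, ?_⟩, ?_, ?_⟩
  · have : (0 : ℝ) ≤ a 1 := by rw [hpa]; exact mul_nonneg hk0.le hp'.1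
    exact_mod_cast this
  · have : (0 : ℝ) ≤ a 2 := by rw [hpa]; exact mul_nonneg hk0.le hp'.2
    exact_mod_cast this
  · rintro ⟨q, ⟨hq, hq1, hq2⟩, hqa⟩
    have h1 := hqa 1
    have h2 := hqa 2
    rw [hq1, mul_zero] at h1
    rw [hq2, mul_zero] at h2
    exact ⟨by exact_mod_cast h1, by exact_mod_cast h2⟩
  · rintro ⟨h1, h2⟩
    refine ⟨p, ⟨hp, ?_, ?_⟩, hpa⟩
    · have := hpa 1
      rw [h1] at this
      have h3 : (k : ℝ) * p 1 = 0 := by rw [← this]; norm_num
      rcases mul_eq_zero.1 h3 with h | h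
      · exact absurd h hk0.ne'
      · exact h
    · have := hpa 2
      rw [h2] at this
      have h3 : (k : ℝ) * p 2 = 0 := by rw [← this]; norm_num
      rcases mul_eq_zero.1 h3 with h | h
      · exact absurd h hk0.ne'
      · exact h

lemma mono_pt (j : ℕ) (a : Fin 3 → ℤ) (h1 : 0 ≤ a 1) (h2 : 0 ≤ a 2) :
    mono (pt j) a = (1 + uu j) ^ a 0 * (uu j) ^ (a 1).toNat *
      (-(uu j * (1 + uu j))) ^ (a 2).toNat := by
  have ha : a = ![a 0, a 1, a 2] := by funext i; fin_cases i <;> rfl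
  rw [ha, mono3]
  obtain ⟨m, hm⟩ := Int.eq_ofNat_of_zero_le h1
  obtain ⟨n, hn⟩ := Int.eq_ofNat_of_zero_le h2
  simp [pt, hm, hn]

open Classical in
lemma mono_tendsto {k : ℕ} (hk : 1 ≤ k) {a : Fin 3 → ℤ} (ha : a ∈ latt (newton Q) k) :
    Tendsto (fun j => mono (pt j) a) atTop
      (𝓝 (mono (fun _ => 1) a * (if a ∈ latt edge k then 1 else 0))) := by
  obtain ⟨⟨h1, h2⟩, h3⟩ := latt_edge hk ha
  have e1 : ∀ j, mono (pt j) a = (1 + uu j) ^ a 0 * (uu j) ^ (a 1).toNat *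
      (-(uu j * (1 + uu j))) ^ (a 2).toNat := fun j => mono_pt j a h1 h2
  have e2 : mono (fun _ : Fin 3 => 1) a = 1 := by simp [mono]
  rw [e2, one_mul]
  simp_rw [e1]
  have t1 : Tendsto (fun j => 1 + uu j) atTop (𝓝 1) := by
    simpa using uu_tendsto.const_add 1
  have t2 : Tendsto (fun j => -(uu j * (1 + uu j))) atTop (𝓝 0) := by
    simpa using (uu_tendsto.mul t1).neg
  have t3 := ((t1.zpow₀ (a 0) (Or.inl one_ne_zero)).mul (uu_tendsto.pow (a 1).toNat)).mul
    (t2.pow (a 2).toNat)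
  convert t3 using 2
  rw [one_zpow, one_mul]
  by_cases h4 : a 1 = 0 ∧ a 2 = 0
  · rw [if_pos (h3.2 h4), h4.1, h4.2]
    simp
  · rw [if_neg (fun h => h4 (h3.1 h))]
    rcases not_and_or.1 h4 with h | h
    · rw [zero_pow (by omega), zero_mul]
    · rw [zero_pow (n := (a 2).toNat) (by omega), mul_zero]

lemma dir_ne : (![2, 1, -1] : Fin 3 → ℂ) ≠ 0 := by
  intro h
  have := congrFun h 1
  simp at this

lemma dir_not_parallel : ¬ IsParallel (Projectivization.mk ℂ _ dir_ne) edge := by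
  rintro ⟨v, ⟨hv, hvr⟩, hspan⟩
  have h1 : v 1 = 0 := by
    have hle : Submodule.span ℂ {w : Fin 3 → ℂ | ∃ a ∈ edge, ∃ b ∈ edge,
        w = fun i => ((a i - b i : ℝ) : ℂ)} ≤ LinearMap.ker (LinearMap.proj (R := ℂ) 1) := by
      rw [Submodule.span_le]
      rintro w ⟨a, ha, b, hb, rfl⟩
      simp only [SetLike.mem_coe, LinearMap.mem_ker, LinearMap.proj_apply]
      rw [ha.2.1, hb.2.1]
      simp
    have := hle hspan
    simpa using this
  rw [Projectivization.mk_eq_mk_iff'] at hvr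
  obtain ⟨c, hc⟩ := hvr
  have := congrFun hc 1
  simp [h1] at this

/-- The Laurent polynomial `Q = (x - 1)² + y + z` has a three-dimensional Newton polytope and a
smooth hypersurface `V_Q`, and the assertion of Q1 fails for it, for every `k ≥ 1`. -/
theorem result : ∃ Q : Laurent 3, affineSpan ℝ (newton Q) = ⊤ ∧ (∀ z ∈ hyp Q, logGrad Q z ≠ 0) ∧
    ∀ k : ℕ, 1 ≤ k → ¬ Assertion Q k := by
  refine ⟨Q, full_dim, fun z _ => regular z, fun k hk hA => ?_⟩
  classical
  have hzero : (0 : Fin 3 → ℤ) ∈ latt edge k := by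
    obtain ⟨-, _⟩ := edge_face
    refine ⟨fun _ => 0, ⟨?_, rfl, rfl⟩, by simp⟩
    have := mem_newton (a := ![0, 0, 0]) (by rw [mem_support]; simp)
    convert this using 1
    funext i; fin_cases i <;> simp
  have hzero' : (0 : Fin 3 → ℤ) ∈ latt (newton Q) k := by
    obtain ⟨p, hp, hpa⟩ := hzero
    exact ⟨p, hp.1, hpa⟩
  have hne : ∀ z : Fin 3 → ℂˣ, (fun a : latt (newton Q) k => mono z a) ≠ 0 := by
    intro z h
    have := congrFun h ⟨0, hzero'⟩
    simp [mono] at this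
  set w : latt (newton Q) k → ℂ := fun a =>
    mono (fun _ : Fin 3 => 1) a * (if (a : Fin 3 → ℤ) ∈ latt edge k then 1 else 0) with hw
  have hwne : w ≠ 0 := by
    intro h
    have := congrFun h ⟨0, hzero'⟩
    simp [hw, mono, hzero] at this
  have htend : Tendsto (fun j => Projectivization.mk ℂ (fun a : latt (newton Q) k => mono (pt j) a)
      (hne _)) atTop (𝓝 (Projectivization.mk ℂ w hwne)) := by
    apply tendsto_proj
    rw [tendsto_pi_nhds]
    intro a
    exact mono_tendsto hk a.2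
  have hr : ∀ j, Projectivization.mk ℂ (logGrad Q (pt j)) (regular _) =
      Projectivization.mk ℂ (![2 * (1 + uu j), 1, -(1 + uu j)] : Fin 3 → ℂ) (by
        intro h; have := congrFun h 1; simp at this) := by
    intro j
    rw [Projectivization.mk_eq_mk_iff']
    refine ⟨uu j, ?_⟩
    rw [logGrad_Q]
    funext i
    fin_cases i <;> simp [pt] <;> ring
  have htendr : Tendsto (fun j => Projectivization.mk ℂ (logGrad Q (pt j)) (regular _)) atTop
      (𝓝 (Projectivization.mk ℂ _ dir_ne)) := by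
    simp_rw [hr]
    apply tendsto_proj
    have t1 : Tendsto (fun j => 1 + uu j) atTop (𝓝 1) := by
      simpa using uu_tendsto.const_add 1
    rw [tendsto_pi_nhds]
    intro i
    fin_cases i
    · simpa using t1.const_mul 2
    · simp
    · simpa using t1.neg
  refine dir_not_parallel (hA pt _ _ pt_mem (fun j => ⟨hne _, rfl⟩) (fun j => ⟨regular _, rfl⟩)
    (Projectivization.mk ℂ w hwne) ?_ _
    ⟨id, strictMono_id, htend.prodMk_nhds htendr⟩ edge edge_face ⟨fun _ => 1, hwne, ?_⟩)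
  · exact mem_closure_of_tendsto htend (Eventually.of_forall fun j => ⟨pt j, hne _, rfl⟩)
  · rfl

end Pool.Agent.Results.MP_759130_ag.DirectionOffFace
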